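import Pool.Agent.Helper58.LpM.Near

/-!
# Almost every boundary point of a local minimizer lies in a boundary segment
-/

set_option autoImplicit false

namespace Pool.Agent.Helper58.LpM

open MeasureTheory Set Real Filter Pool.Agent.Helper15.LpM
open scoped ENNReal NNReal Pointwise Topology

variable {n : ℕ} {K : Set (Fin n → ℝ)} {p : ℝ}

theorem measurableSet_zeroCone (hp : 0 < p) (hK : IsSymmBody K) :
    MeasurableSet (zeroCone p K) := by
  have hq : 0 < 1 / p := by positivity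
  have hKcl : IsClosed K := hK.compact.isClosed
  have hKd : K ⊆ (1 + ep (1 / p)) • K := subset_dilate hK (by linarith [ep_pos hq])
  have hψcont : ContinuousOn (lpDensity p K) K := (continuousOn_lpDensity hp hK).mono hKd
  have hZ : IsClosed (K ∩ lpDensity p K ⁻¹' {1 + p}) :=
    hψcont.preimage_isClosed_of_isClosed hKcl isClosed_singleton
  have hg : Continuous (gauge K) := continuous_gauge hK.convex (nhds_zero hK)
  have hf : Measurable (fun z : Fin n → ℝ => (gauge K z)⁻¹ • z) :=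
    hg.measurable.inv.smul measurable_id
  have e : zeroCone p K = {0}ᶜ ∩ (fun z : Fin n → ℝ => (gauge K z)⁻¹ • z) ⁻¹'
      (K ∩ lpDensity p K ⁻¹' {1 + p}) := by
    ext z
    constructor
    · rintro ⟨h1, h2⟩
      exact ⟨h1, hKcl.frontier_subset (normalise_mem hK h1), h2⟩
    · rintro ⟨h1, h2, h3⟩
      exact ⟨h1, h3⟩
  rw [e]
  exact (measurableSet_singleton _).compl.inter (hf hZ.measurableSet)

theorem smul_zeroCone (c : ℝ) (hc : 0 < c) : c • zeroCone p K = zeroCone p K := by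
  have key : ∀ c : ℝ, 0 < c → ∀ z ∈ zeroCone p K, c • z ∈ zeroCone p K := by
    rintro c hc z ⟨h1, h2⟩
    refine ⟨smul_ne_zero hc.ne' h1, ?_⟩
    rw [gauge_smul_of_nonneg hc.le, smul_eq_mul, smul_smul, mul_inv_rev,
      mul_assoc, inv_mul_cancel₀ hc.ne', mul_one]
    exact h2
  apply Subset.antisymm
  · rintro _ ⟨z, hz, rfl⟩
    exact key c hc z hz
  · intro z hz
    exact ⟨c⁻¹ • z, key _ (inv_pos.2 hc) z hz, by
      simp only
      rw [smul_smul, mul_inv_cancel₀ hc.ne', one_smul]⟩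

theorem exists_density_pt (hp : 0 < p) (hK : IsSymmBody K) (hpos : volume (zeroCone p K) ≠ 0) :
    ∃ x₀ ∈ frontier K, x₀ ≠ 0 ∧ lpDensity p K x₀ = 1 + p ∧
      Tendsto (fun r => volume (zeroCone p K ∩ Metric.closedBall x₀ r) /
        volume (Metric.closedBall x₀ r)) (𝓝[>] 0) (𝓝 1) := by
  have hSm := measurableSet_zeroCone hp hK
  have hae := Besicovitch.ae_tendsto_measure_inter_div
    (volume : Measure (Fin n → ℝ)) (zeroCone p K)
  rw [ae_restrict_iff' hSm] at hae
  obtain ⟨z, hzS, hz⟩ : ∃ z ∈ zeroCone p K,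
      Tendsto (fun r => volume (zeroCone p K ∩ Metric.closedBall z r) /
        volume (Metric.closedBall z r)) (𝓝[>] 0) (𝓝 1) := by
    by_contra! hcon
    apply hpos
    rw [measure_eq_zero_iff_ae_notMem]
    filter_upwards [hae] with z hz hzS
    exact hcon z hzS (hz hzS)
  obtain ⟨hz0, hzψ⟩ := id hzS
  have hg := gauge_pos_of_ne hK hz0
  obtain ⟨c, hc⟩ : ∃ c, c = (gauge K z)⁻¹ := ⟨_, rfl⟩
  have hc0 : 0 < c := hc ▸ inv_pos.2 hg
  rw [← hc] at hzψ
  refine ⟨c • z, hc ▸ normalise_mem hK hz0, smul_ne_zero hc0.ne' hz0, hzψ, ?_⟩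
  have h1 : Tendsto (fun r : ℝ => r / c) (𝓝[>] 0) (𝓝[>] 0) := by
    apply tendsto_nhdsWithin_of_tendsto_nhds_of_eventually_within
    · have : Continuous (fun r : ℝ => r / c) := by fun_prop
      have h2 := this.tendsto 0
      rw [zero_div] at h2
      exact h2.mono_left nhdsWithin_le_nhds
    · filter_upwards [self_mem_nhdsWithin] with r hr
      exact div_pos hr hc0
  refine (hz.comp h1).congr' ?_
  filter_upwards [self_mem_nhdsWithin] with r hr
  have hr0 : (0 : ℝ) < r := hr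
  have e1 : Metric.closedBall (c • z) r = c • Metric.closedBall z (r / c) := by
    rw [smul_closedBall _ _ (by positivity), Real.norm_eq_abs, abs_of_pos hc0]
    congr 1
    field_simp
  have e2 : zeroCone p K ∩ Metric.closedBall (c • z) r =
      c • (zeroCone p K ∩ Metric.closedBall z (r / c)) := by
    rw [e1, Set.smul_set_inter₀ hc0.ne', smul_zeroCone c hc0]
  simp only [Function.comp_apply]
  rw [e2, e1, Measure.addHaar_smul, Measure.addHaar_smul]
  rw [ENNReal.mul_div_mul_left]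
  · rw [ne_eq, ENNReal.ofReal_eq_zero, not_le]
    positivity
  · exact ENNReal.ofReal_ne_top

theorem volume_zeroCone (hn : 2 ≤ n) (hp : 0 < p) (hK : IsSymmBody K) (hmin : IsLocMin p K) :
    volume (zeroCone p K) = 0 := by
  by_contra hpos
  obtain ⟨x₀, hx₀, hx₀0, hψ₀, hd⟩ := exists_density_pt hp hK hpos
  have hq : 0 < 1 / p := by positivity
  have hSm := measurableSet_zeroCone hp hK
  have hx₀K : x₀ ∈ K := hK.compact.isClosed.frontier_subset hx₀
  have hKd : K ⊆ (1 + ep (1 / p)) • K := subset_dilate hK (by linarith [ep_pos hq])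
  have hnear := fun (ε : ℝ) (hε : 0 < ε) => near_bound hp hK hx₀ hψ₀ hSm hd hε
  obtain ⟨a, κ, hκ, hst⟩ := lpDensity_strong hp hK hx₀K
  have hlt := lpDensity_zero_lt hp hK (hKd hx₀K) hx₀0
  have hm0 : 0 < 1 + p - lpDensity p K 0 := by linarith
  let u : (Fin n → ℝ) →L[ℝ] ℝ :=
    LinearMap.toContinuousLinearMap
      { toFun := fun x => a ⬝ᵥ x
        map_add' := fun x y => dotProduct_add _ _ _
        map_smul' := fun c x => by simp [dotProduct_smul] }
  have hu : ∀ x, u x = a ⬝ᵥ x := fun x => rfl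
  have hux₀ : 0 < u x₀ := by
    have h1 := hst 0 hK.zero_mem
    rw [zero_sub, dotProduct_neg, ← hu] at h1
    have : 0 ≤ κ * ‖-x₀‖ ^ 2 := by positivity
    linarith
  obtain ⟨r₁, hr₁, hn1⟩ := hnear (κ / 2) (by positivity)
  refine cap_depth_contradiction hn hp hK hmin hx₀K u hux₀ (r₁ := r₁) (κ := κ / 2) hr₁
    (by positivity) hm0 ?_ hnear
  intro x hx hxr
  have h1 := hst x hx
  have h2 := hn1 x hx hxr
  have h3 : 0 ≤ (1 - gauge K x) * (1 + p - lpDensity p K 0) :=
    mul_nonneg (sub_nonneg.2 (gauge_le_one_of_mem hx)) hm0.le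
  rw [dotProduct_sub, ← hu, ← hu] at h1
  linarith

/-- if `x` is a boundary point and is not extreme, it lies in a boundary segment -/
theorem exists_segment_of_not_extreme (hK : IsSymmBody K) {x : Fin n → ℝ} (hx : x ∈ frontier K)
    (hne : x ∉ K.extremePoints ℝ) : ∃ y, y ≠ x ∧ segment ℝ x y ⊆ frontier K := by
  have hKcl : IsClosed K := hK.compact.isClosed
  have hxK : x ∈ K := hKcl.frontier_subset hx
  have h1 : ∃ x₁ ∈ K, ∃ x₂ ∈ K, x ∈ openSegment ℝ x₁ x₂ ∧ x₁ ≠ x := by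
    by_contra! hcon
    exact hne ⟨hxK, fun x₁ hx₁ x₂ hx₂ h => hcon x₁ hx₁ x₂ hx₂ h⟩
  obtain ⟨x₁, hx₁, x₂, hx₂, hseg, hne1⟩ := h1
  refine ⟨x₁, hne1, ?_⟩
  obtain ⟨u, hu1, hu2, -⟩ := exists_support hK hx
  obtain ⟨α, β, hα, hβ, hαβ, hxe⟩ := hseg
  have hux : u x = α * u x₁ + β * u x₂ := by
    rw [← hxe, map_add, map_smul, map_smul, smul_eq_mul, smul_eq_mul]
  have h2 := hu2 x₁ hx₁
  have h3 := hu2 x₂ hx₂
  have h4 : u x₁ = u x := by
    have : α * (u x - u x₁) + β * (u x - u x₂) = 0 := by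
      have e : α * (u x - u x₁) + β * (u x - u x₂) =
        (α + β) * u x - (α * u x₁ + β * u x₂) := by ring
      rw [e, hαβ, ← hux]
      ring
    have h5 : 0 ≤ β * (u x - u x₂) := mul_nonneg hβ.le (by linarith)
    have h6 : 0 ≤ α * (u x - u x₁) := mul_nonneg hα.le (by linarith)
    have h7 : α * (u x - u x₁) = 0 := by linarith
    rcases mul_eq_zero.1 h7 with h8 | h8
    · exact absurd h8 hα.ne'
    · linarith
  rintro z ⟨c, d, hc, hd, hcd, rfl⟩
  rw [frontier, hKcl.closure_eq]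
  refine ⟨hK.convex hxK hx₁ hc hd hcd, fun hint => ?_⟩
  have h5 := hu1 _ hint
  rw [map_add, map_smul, map_smul, h4, ← add_smul, hcd, one_smul] at h5
  exact lt_irrefl _ h5

theorem ae_segment (hn : 2 ≤ n) (hp : 0 < p) (hK : IsSymmBody K) (hmin : IsLocMin p K) :
    ∀ᵐ z : Fin n → ℝ, ∃ y, y ≠ (gauge K z)⁻¹ • z ∧
      segment ℝ ((gauge K z)⁻¹ • z) y ⊆ frontier K := by
  have h0 : volume ({0} : Set (Fin n → ℝ)) = 0 := by
    have : Nonempty (Fin n) := ⟨⟨0, by omega⟩⟩
    exact measure_singleton _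
  have h1 : ∀ᵐ z : Fin n → ℝ, z ∉ ({0} : Set (Fin n → ℝ)) := measure_eq_zero_iff_ae_notMem.1 h0
  have h2 : ∀ᵐ z : Fin n → ℝ, z ∉ zeroCone p K :=
    measure_eq_zero_iff_ae_notMem.1 (volume_zeroCone hn hp hK hmin)
  filter_upwards [h1, h2] with z hz0 hzc
  have hx := normalise_mem hK (show z ≠ 0 from hz0)
  by_cases hext : (gauge K z)⁻¹ • z ∈ K.extremePoints ℝ
  · obtain ⟨y, -, hy2, hy3⟩ := exists_lpDensity_le hp hK hmin hx
    refine ⟨y, ?_, hy2⟩
    intro hyx
    rw [hyx] at hy3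
    have h3 := lpDensity_extreme (by omega) hp hK hmin hext
    exact hzc ⟨hz0, le_antisymm hy3 h3⟩
  · exact exists_segment_of_not_extreme hK hx hext

end Pool.Agent.Helper58.LpM
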