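import Pool.Agent.Helper15.LpM.Patch

/-!
# A cap argument with a quadratic error term
-/

set_option autoImplicit false

namespace Pool.Agent.Helper58.LpM

open MeasureTheory Set Real Pool.Agent.Helper15.LpM
open scoped ENNReal NNReal Pointwise Topology

variable {n : ℕ} {K : Set (Fin n → ℝ)} {p : ℝ}

/-- Let `x₀` be a boundary point at which a linear functional `u` has a strict maximum on `K`,
with quadratic decay, and suppose that the density exceeds `1 + p` at most by a small multiple of
`|x - x₀|²` minus a multiple of `1 - |x|_K`. Then `K` is not a local minimizer. -/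
theorem cap_depth_contradiction (hn : 2 ≤ n) (hp : 0 < p) (hK : IsSymmBody K)
    (hmin : IsLocMin p K) {x₀ : Fin n → ℝ} (hx₀K : x₀ ∈ K)
    (u : (Fin n → ℝ) →L[ℝ] ℝ) (hux₀ : 0 < u x₀) {r₁ κ m : ℝ} (hr₁ : 0 < r₁) (hκ : 0 < κ)
    (hm0 : 0 < m)
    (hloc : ∀ x ∈ K, ‖x - x₀‖ ≤ r₁ → u x + κ * ‖x - x₀‖ ^ 2 ≤ u x₀)
    (hsmall : ∀ η : ℝ, 0 < η → ∃ r₀ > 0, ∀ x ∈ K, ‖x - x₀‖ ≤ r₀ →
      lpDensity p K x - (1 + p) ≤ η * ‖x - x₀‖ ^ 2 - (1 - gauge K x) * m) : False := by
  obtain ⟨C, ε, hC, hε, hε1, hrem⟩ := locmin_remove hp hK hmin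
  have hKcl : IsClosed K := hK.compact.isClosed
  have hq : 0 < 1 / p := by positivity
  have hKd : K ⊆ (1 + ep (1 / p)) • K := subset_dilate hK (by linarith [ep_pos hq])
  obtain ⟨h, hh⟩ : ∃ h, h = u x₀ := ⟨_, rfl⟩
  rw [← hh] at hux₀
  have hu0 : (u : (Fin n → ℝ) →ₗ[ℝ] ℝ) ≠ 0 := by
    intro h0
    have : u x₀ = 0 := by
      have := LinearMap.congr_fun h0 x₀
      simpa using this
    rw [← hh] at this
    linarith
  obtain ⟨C', hC', hslab⟩ := slab_volume hn hu0
  set c₀ := m / (4 * h) * (1 / 2) ^ n with hc₀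
  have hc₀0 : 0 < c₀ := by positivity
  obtain ⟨r₂, hr₂, hr₂'⟩ := hsmall (κ * (c₀ / 4)) (by positivity)
  set r := min (min r₁ r₂) (min (1 / 2) (c₀ / (16 * C * C'))) with hr
  have hr0 : 0 < r := by
    rw [hr]
    positivity
  have r1 : r ≤ r₁ := (min_le_left _ _).trans (min_le_left _ _)
  have r1' : r ≤ r₂ := (min_le_left _ _).trans (min_le_right _ _)
  have r2 : r ≤ 1 / 2 := (min_le_right _ _).trans (min_le_left _ _)
  have r3 : r ≤ c₀ / (16 * C * C') := (min_le_right _ _).trans (min_le_right _ _)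
  set d := min (κ * r ^ 2 / 2) (ε * h) with hd
  have hd0 : 0 < d := by
    rw [hd]
    positivity
  have d1 : d ≤ κ * r ^ 2 / 2 := min_le_left _ _
  have d2 : d ≤ ε * h := min_le_right _ _
  have d3 : d < h := by nlinarith
  -- caps are small
  have hcapball : ∀ z ∈ K, h - d < u z → ‖z - x₀‖ < r := by
    intro z hz hzd
    by_contra! hge
    have hnpos : 0 < ‖z - x₀‖ := hr0.trans_le hge
    set s := r / ‖z - x₀‖ with hs
    have hs0 : 0 < s := by positivity
    have hs1 : s ≤ 1 := (div_le_one hnpos).2 hge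
    have hz'' : x₀ + s • (z - x₀) ∈ K := by
      have := hK.convex hx₀K hz (sub_nonneg.2 hs1) hs0.le (by ring)
      convert this using 1
      module
    have hnorm : ‖x₀ + s • (z - x₀) - x₀‖ = r := by
      rw [add_sub_cancel_left, norm_smul, Real.norm_eq_abs, abs_of_pos hs0, hs]
      field_simp
    have h1 := hloc _ hz'' (by rw [hnorm]; exact r1)
    rw [hnorm, map_add, map_smul, map_sub, smul_eq_mul, ← hh] at h1
    have h2 : κ * r ^ 2 ≤ s * (h - u z) := by linarith
    have h3 : 0 < κ * r ^ 2 := by positivity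
    have h4 : 0 < h - u z := by
      by_contra! h5
      have : s * (h - u z) ≤ 0 := mul_nonpos_of_nonneg_of_nonpos hs0.le h5
      linarith
    have h5 : s * (h - u z) ≤ h - u z := mul_le_of_le_one_left h4.le hs1
    linarith
  have hu2 : ∀ z ∈ K, u z ≤ h := by
    intro z hz
    by_contra! hlt
    have h1 := hcapball z hz (by linarith)
    have h2 := hloc z hz (h1.le.trans r1)
    have : 0 ≤ κ * ‖z - x₀‖ ^ 2 := by positivity
    rw [← hh] at h2
    linarith
  have hcap : ∀ z ∈ K, h - d < u z →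
      lpDensity p K z - (1 + p) ≤ c₀ / 4 * d - m * (1 - gauge K z) := by
    intro z hz hzd
    have h1 := hcapball z hz hzd
    have h2 := hr₂' z hz (h1.le.trans r1')
    have h3 := hloc z hz (h1.le.trans r1)
    rw [← hh] at h3
    have h4 : κ * ‖z - x₀‖ ^ 2 ≤ d := by linarith
    have h5 : κ * (c₀ / 4) * ‖z - x₀‖ ^ 2 ≤ c₀ / 4 * d := by
      calc κ * (c₀ / 4) * ‖z - x₀‖ ^ 2 = c₀ / 4 * (κ * ‖z - x₀‖ ^ 2) := by ring
        _ ≤ _ := by gcongr
    linarith
  set A : Set (Fin n → ℝ) := {z | z ∈ K ∧ h - d < u z} with hA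
  have hAball : A ⊆ Metric.ball x₀ r := fun z hz => by
    rw [mem_ball_iff_norm]
    exact hcapball z hz.1 hz.2
  have hAm : MeasurableSet A :=
    hK.compact.measurableSet.inter (measurableSet_lt measurable_const u.continuous.measurable)
  have hAfin : volume A ≠ ⊤ :=
    ((measure_mono (fun z hz => hz.1 : A ⊆ K)).trans_lt hK.compact.measure_lt_top).ne
  set L := K ∩ {z | |u z| ≤ h - d} with hL
  obtain ⟨hLconv, hLc, hLs⟩ := cutCap hK u (h - d)
  have hKL : (1 - ε) • K ⊆ L := by
    rintro _ ⟨k, hk, rfl⟩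
    refine ⟨dilate_subset hK (by linarith) (by linarith) ⟨k, hk, rfl⟩, ?_⟩
    simp only [mem_ofPred_eq]
    rw [map_smul, smul_eq_mul, abs_mul, abs_of_pos (by linarith : 0 < 1 - ε)]
    have h1 : |u k| ≤ h := by
      rw [abs_le]
      have := hu2 (-k) (hK.symm k hk)
      rw [map_neg] at this
      exact ⟨by linarith, hu2 k hk⟩
    nlinarith
  have hdiff : ∀ z, z ∈ K \ L ↔ z ∈ A ∨ -z ∈ A := by
    intro z
    constructor
    · rintro ⟨h1, h2⟩
      have h3 : h - d < |u z| := by
        by_contra! h4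
        exact h2 ⟨h1, h4⟩
      rcases lt_abs.1 h3 with h4 | h4
      · exact Or.inl ⟨h1, h4⟩
      · exact Or.inr ⟨hK.symm z h1, by rwa [map_neg]⟩
    · rintro (⟨h1, h2⟩ | ⟨h1, h2⟩)
      · refine ⟨h1, fun h3 => ?_⟩
        have : |u z| ≤ h - d := h3.2
        exact absurd (lt_of_lt_of_le h2 (le_abs_self _)) (not_lt.2 this)
      · refine ⟨by simpa using hK.symm _ h1, fun h3 => ?_⟩
        have : |u z| ≤ h - d := h3.2
        rw [map_neg] at h2
        exact absurd (lt_of_lt_of_le h2 (neg_le_abs _)) (not_lt.2 this)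
  -- volumes
  have hKLfin : volume (K \ L) ≠ ⊤ :=
    ((measure_mono sdiff_subset).trans_lt hK.compact.measure_lt_top).ne
  have hvol2 : (volume (K \ L)).toReal ≤ 2 * (volume A).toReal := by
    have h1 : K \ L ⊆ A ∪ -A := by
      intro z hz
      exact (hdiff z).1 hz
    have h2 : volume (K \ L) ≤ volume A + volume A := by
      refine (measure_mono h1).trans ((measure_union_le _ _).trans (le_of_eq ?_))
      rw [Measure.measure_neg]
    have h3 := ENNReal.toReal_mono (ENNReal.add_ne_top.2 ⟨hAfin, hAfin⟩) h2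
    rw [ENNReal.toReal_add hAfin hAfin] at h3
    linarith
  have hApos : 0 < (volume A).toReal := by
    refine ENNReal.toReal_pos ?_ hAfin
    have h1 : 0 < volume (K \ {z | u z ≤ h - d}) := by
      apply volume_diff_pos hK.convex hK.nonempty_interior
        (isClosed_le u.continuous continuous_const) hx₀K
      simp only [mem_ofPred_eq, not_le]
      linarith
    have h2 : K \ {z | u z ≤ h - d} = A := by
      ext z
      simp [hA]
    rw [h2] at h1
    exact h1.ne'
  have hAvol : (volume A).toReal ≤ C' * d * r := by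
    apply hslab x₀ r d hr0 r2 hd0 A hAball
    intro z hz
    have e1 := hz.2.le
    have e2 := hu2 z hz.1
    rw [hh] at e1 e2
    exact ⟨e1, e2⟩
  -- the integral
  have hψcont : ContinuousOn (lpDensity p K) K := (continuousOn_lpDensity hp hK).mono hKd
  have hint : IntegrableOn (fun z => lpDensity p K z - (1 + p)) (K \ L) :=
    ((hψcont.sub continuousOn_const).integrableOn_compact hK.compact).mono_set sdiff_subset
  have hint2 : IntegrableOn (fun z => (lpDensity p K z - (1 + p)) - c₀ / 4 * d) (K \ L) :=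
    (((hψcont.sub continuousOn_const).sub continuousOn_const).integrableOn_compact
      hK.compact).mono_set sdiff_subset
  have hle0 : ∀ z ∈ K \ L, (lpDensity p K z - (1 + p)) - c₀ / 4 * d ≤ 0 := by
    have key : ∀ z ∈ A, (lpDensity p K z - (1 + p)) - c₀ / 4 * d ≤ 0 := by
      intro z hz
      have h1 := hcap z hz.1 hz.2
      have h2 : gauge K z ≤ 1 := gauge_le_one_of_mem hz.1
      nlinarith
    intro z hz
    rcases (hdiff z).1 hz with h1 | h1
    · exact key z h1
    · have := key (-z) h1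
      rwa [lpDensity_neg hp hK] at this
  set b : Fin n → ℝ := (1 - d / (2 * h)) • x₀ with hb
  set B : Set (Fin n → ℝ) := (fun z => (1 / 2 : ℝ) • b + (1 / 2 : ℝ) • z) '' A with hB
  have hdh : d / (2 * h) < 1 := by
    rw [div_lt_one (by positivity)]
    linarith
  have hbK : b ∈ K := dilate_subset hK (by linarith) (by
    have : 0 < d / (2 * h) := by positivity
    linarith) ⟨x₀, hx₀K, rfl⟩
  have hub : u b = h - d / 2 := by
    rw [hb, map_smul, smul_eq_mul, ← hh]
    field_simp
  have hBA : B ⊆ A := by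
    rintro _ ⟨z, hz, rfl⟩
    refine ⟨hK.convex hbK hz.1 (by norm_num) (by norm_num) (by norm_num), ?_⟩
    simp only
    have e1 : u ((1 / 2 : ℝ) • b) = 1 / 2 * u b := by rw [map_smul, smul_eq_mul]
    have e2 : u ((1 / 2 : ℝ) • z) = 1 / 2 * u z := by rw [map_smul, smul_eq_mul]
    rw [map_add, e1, e2, hub]
    have := hz.2
    linarith
  have hBm : MeasurableSet B := by
    have hemb : MeasurableEmbedding (fun z : Fin n → ℝ => (1 / 2 : ℝ) • b + (1 / 2 : ℝ) • z) :=
      ((Homeomorph.smulOfNeZero (1 / 2 : ℝ) (by norm_num)).trans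
        (Homeomorph.addLeft _)).measurableEmbedding
    exact hemb.measurableSet_image.2 hAm
  have hBfin : volume B ≠ ⊤ := ((measure_mono hBA).trans_lt hAfin.lt_top).ne
  have hBvol : (volume B).toReal = (1 / 2) ^ n * (volume A).toReal := by
    have h1 := integral_dilate (by norm_num : (0 : ℝ) < 1 / 2) ((1 / 2 : ℝ) • b) (fun _ => (1 : ℝ))
      hAm
    rw [← hB] at h1
    simpa [measureReal_def] using h1
  have hBval : ∀ z ∈ B, (lpDensity p K z - (1 + p)) - c₀ / 4 * d ≤ -(m * (d / (4 * h))) := by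
    intro z hz
    have h1 := hcap z (hBA hz).1 (hBA hz).2
    have h2 : gauge K z ≤ 1 - d / (4 * h) := by
      apply gauge_le_of_mem
      · have : d / (4 * h) ≤ d / (2 * h) := by
          gcongr
          norm_num
        linarith
      · obtain ⟨a, ha, rfl⟩ := hz
        have e : (1 - d / (4 * h)) = (1 / 2) * (1 - d / (2 * h)) + 1 / 2 := by
          field_simp
          ring
        rw [e, hK.convex.add_smul (by
          have : 0 ≤ 1 - d / (2 * h) := by linarith
          positivity) (by norm_num)]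
        refine Set.add_mem_add ?_ (smul_mem_smul_set ha.1)
        rw [hb, smul_smul]
        exact smul_mem_smul_set hx₀K
    have h3 : m * (d / (4 * h)) ≤ m * (1 - gauge K z) := by
      gcongr
      linarith
    linarith
  have hBKL : B ⊆ K \ L := fun z hz => (hdiff z).2 (Or.inl (hBA hz))
  have hI : m * (d / (4 * h)) * (volume B).toReal ≤
      -∫ z in K \ L, ((lpDensity p K z - (1 + p)) - c₀ / 4 * d) := by
    have h1 := setIntegral_le_neg hBm hBfin (hint2.mono_set hBKL) hBval
    have h2 : -∫ z in B, ((lpDensity p K z - (1 + p)) - c₀ / 4 * d) ≤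
        -∫ z in K \ L, ((lpDensity p K z - (1 + p)) - c₀ / 4 * d) := by
      rw [← integral_neg, ← integral_neg]
      apply setIntegral_mono_set hint2.neg
      · refine (ae_restrict_iff' (hK.compact.measurableSet.diff hLc.measurableSet)).2
          (Filter.Eventually.of_forall ?_)
        intro z hz
        have := hle0 z hz
        simp only [Pi.zero_apply, Pi.neg_apply]
        linarith
      · exact hBKL.eventuallyLE
    exact h1.trans h2
  have hI2 : ∫ z in K \ L, ((lpDensity p K z - (1 + p)) - c₀ / 4 * d) =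
      (∫ z in K \ L, (lpDensity p K z - (1 + p))) - c₀ / 4 * d * (volume (K \ L)).toReal := by
    have hfin : IsFiniteMeasure ((volume : Measure (Fin n → ℝ)).restrict (K \ L)) :=
      ⟨by rwa [Measure.restrict_apply_univ, lt_top_iff_ne_top]⟩
    rw [integral_sub hint (integrable_const _), setIntegral_const, smul_eq_mul, measureReal_def]
    ring
  rw [hI2] at hI
  have hfinal := hrem L hLconv hLc hLs hKL inter_subset_left
  rw [hBvol] at hI
  have h5 : m * (d / (4 * h)) * ((1 / 2) ^ n * (volume A).toReal) =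
      (c₀ * d) * (volume A).toReal := by
    rw [hc₀]
    field_simp
  have h6 : C * (volume (K \ L)).toReal ^ 2 ≤ (4 * C * (volume A).toReal) * (volume A).toReal := by
    calc C * (volume (K \ L)).toReal ^ 2 ≤ C * (2 * (volume A).toReal) ^ 2 := by gcongr
      _ = _ := by ring
  rw [h5] at hI
  have h6' : c₀ / 4 * d * (volume (K \ L)).toReal ≤ (c₀ / 2 * d) * (volume A).toReal := by
    calc c₀ / 4 * d * (volume (K \ L)).toReal ≤ c₀ / 4 * d * (2 * (volume A).toReal) := by gcongr
      _ = _ := by ring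
  have h6'' : (c₀ / 2 * d) * (volume A).toReal ≤
      (4 * C * (volume A).toReal) * (volume A).toReal := by linarith
  have h7 : c₀ / 2 * d ≤ 4 * C * (volume A).toReal := le_of_mul_le_mul_right h6'' hApos
  have h8 : 4 * C * (volume A).toReal ≤ 4 * C * (C' * d * (c₀ / (16 * C * C'))) := by
    gcongr
    exact hAvol.trans (by gcongr)
  have h9 : 4 * C * (C' * d * (c₀ / (16 * C * C'))) = c₀ * d / 4 := by
    field_simp
    ring
  have : 0 < c₀ * d := by positivity
  linarith

end Pool.Agent.Helper58.LpM
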