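import Mathlib

/-!
# A consequence of Lebesgue's density theorem

Near a density point of `S`, every point `w` has a close point `v` with `w + v` and `w + 2v` in `S`.
-/

set_option autoImplicit false

namespace Pool.Agent.Helper58.LpM

open MeasureTheory Set Filter
open scoped ENNReal Topology

theorem density_step {n : ℕ} {S : Set (Fin n → ℝ)} (hS : MeasurableSet S) {x₀ : Fin n → ℝ}
    (hd : Tendsto (fun r => volume (S ∩ Metric.closedBall x₀ r) /
      volume (Metric.closedBall x₀ r)) (𝓝[>] 0) (𝓝 1)) {ε : ℝ} (hε : 0 < ε) (hε1 : ε ≤ 1) :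
    ∃ r₀ > 0, ∀ r : ℝ, 0 < r → r ≤ r₀ → ∀ w : Fin n → ℝ, ‖w - x₀‖ ≤ r →
      ∃ v : Fin n → ℝ, ‖v‖ ≤ ε * r ∧ w + v ∈ S ∧ w + (2 : ℝ) • v ∈ S := by
  set η : ℝ := ε ^ n / (4 * 3 ^ n) with hη
  have hη0 : 0 < η := by positivity
  have hlt : ENNReal.ofReal (1 - η) < 1 := by
    rw [← ENNReal.ofReal_one]
    exact (ENNReal.ofReal_lt_ofReal_iff one_pos).2 (by linarith)
  have hev := hd.eventually (lt_mem_nhds hlt)
  rw [eventually_nhdsWithin_iff, Metric.eventually_nhds_iff] at hev
  obtain ⟨δ, hδ, hev⟩ := hev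
  -- the bound for the complement
  have hcompl : ∀ ρ : ℝ, 0 < ρ → ρ < δ →
      (volume (Metric.closedBall x₀ ρ \ S)).toReal ≤ η * (2 * ρ) ^ n := by
    intro ρ hρ hρδ
    have h1 := hev (y := ρ) (by rw [Real.dist_eq, sub_zero, abs_of_pos hρ]; exact hρδ) hρ
    have hv : volume (Metric.closedBall x₀ ρ) = ENNReal.ofReal ((2 * ρ) ^ n) := by
      rw [Real.volume_pi_closedBall _ hρ.le, Fintype.card_fin]
    have hvr : (volume (Metric.closedBall x₀ ρ)).toReal = (2 * ρ) ^ n := by
      rw [hv, ENNReal.toReal_ofReal (by positivity)]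
    have hfin : volume (Metric.closedBall x₀ ρ) ≠ ⊤ := by
      rw [hv]
      exact ENNReal.ofReal_ne_top
    have h2 : ENNReal.ofReal (1 - η) * volume (Metric.closedBall x₀ ρ) ≤
        volume (S ∩ Metric.closedBall x₀ ρ) := by
      have h3 := ENNReal.mul_le_of_le_div h1.le
      exact h3
    have hfin2 : volume (S ∩ Metric.closedBall x₀ ρ) ≠ ⊤ :=
      ((measure_mono inter_subset_right).trans_lt hfin.lt_top).ne
    have h4 := ENNReal.toReal_mono hfin2 h2
    rw [ENNReal.toReal_mul, hvr] at h4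
    have h5 : 1 - η ≤ (ENNReal.ofReal (1 - η)).toReal := by
      exact Real.le_coe_toNNReal _
    have h6 := measureReal_inter_add_sdiff (μ := volume) (s := Metric.closedBall x₀ ρ) hS hfin
    simp only [measureReal_def] at h6
    rw [inter_comm, hvr] at h6
    have h7 : 0 ≤ (2 * ρ) ^ n := by positivity
    nlinarith
  refine ⟨δ / 4, by positivity, ?_⟩
  intro r hr hrr w hw
  by_contra! hcon
  set D := Metric.closedBall x₀ (3 * r) \ S with hD
  have hDm : MeasurableSet D := Metric.isClosed_closedBall.measurableSet.diff hS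
  have hDv := hcompl (3 * r) (by positivity) (by linarith)
  have hDfin : volume D ≠ ⊤ :=
    ((measure_mono sdiff_subset).trans_lt measure_closedBall_lt_top).ne
  have hsub : Metric.closedBall (0 : Fin n → ℝ) (ε * r) ⊆
      ((fun v => w + v) ⁻¹' D) ∪ ((fun v : Fin n → ℝ => (2 : ℝ) • v) ⁻¹' ((fun v => w + v) ⁻¹' D)) := by
    intro v hv
    rw [mem_closedBall_zero_iff] at hv
    have hv' : ‖v‖ ≤ r := hv.trans (mul_le_of_le_one_left hr.le hε1)
    by_cases h1 : w + v ∈ S
    · right
      refine ⟨?_, hcon v hv h1⟩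
      simp only
      rw [mem_closedBall_iff_norm]
      have e : w + (2 : ℝ) • v - x₀ = (w - x₀) + (2 : ℝ) • v := by abel
      rw [e]
      calc ‖(w - x₀) + (2 : ℝ) • v‖ ≤ ‖w - x₀‖ + ‖(2 : ℝ) • v‖ := norm_add_le _ _
        _ ≤ r + 2 * r := by
            rw [norm_smul, Real.norm_eq_abs, abs_of_pos (two_pos : (0 : ℝ) < 2)]
            gcongr
        _ = 3 * r := by ring
    · left
      refine ⟨?_, h1⟩
      simp only
      rw [mem_closedBall_iff_norm]
      have e : w + v - x₀ = (w - x₀) + v := by abel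
      rw [e]
      calc ‖(w - x₀) + v‖ ≤ ‖w - x₀‖ + ‖v‖ := norm_add_le _ _
        _ ≤ r + r := by gcongr
        _ ≤ 3 * r := by linarith
  have h1 : volume ((fun v => w + v) ⁻¹' D) = volume D := measure_preimage_add _ _ _
  have h2 : volume ((fun v : Fin n → ℝ => (2 : ℝ) • v) ⁻¹' ((fun v => w + v) ⁻¹' D)) ≤
      volume D := by
    rw [Measure.addHaar_preimage_smul _ two_ne_zero, h1]
    apply mul_le_of_le_one_left zero_le
    rw [ENNReal.ofReal_le_one, abs_of_pos (by positivity)]
    apply inv_le_one_of_one_le₀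
    exact one_le_pow₀ (by norm_num)
  have h3 : volume (Metric.closedBall (0 : Fin n → ℝ) (ε * r)) ≤ volume D + volume D := by
    refine (measure_mono hsub).trans ((measure_union_le _ _).trans ?_)
    rw [h1]
    gcongr
  have h4 := ENNReal.toReal_mono (ENNReal.add_ne_top.2 ⟨hDfin, hDfin⟩) h3
  rw [ENNReal.toReal_add hDfin hDfin, Real.volume_pi_closedBall _ (by positivity),
    Fintype.card_fin, ENNReal.toReal_ofReal (by positivity)] at h4
  have h5 : (2 * (ε * r)) ^ n ≤ 2 * (η * (2 * (3 * r)) ^ n) := by linarith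
  have h6 : 2 * (η * (2 * (3 * r)) ^ n) = (2 * (ε * r)) ^ n / 2 := by
    rw [hη, mul_pow, mul_pow, mul_pow, mul_pow]
    field_simp
    ring
  have h7 : 0 < (2 * (ε * r)) ^ n := by positivity
  linarith

end Pool.Agent.Helper58.LpM
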