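import Pool.Agent.Helper58.LpM.Quad
import Pool.Agent.Helper58.LpM.DensityPt
import Pool.Agent.Helper58.LpM.CapDepth

/-!
# Boundary points where the density equals `1 + p`
-/

set_option autoImplicit false

namespace Pool.Agent.Helper58.LpM

open MeasureTheory Set Real Filter Pool.Agent.Helper15.LpM
open scoped ENNReal NNReal Pointwise Topology

variable {n : ℕ} {K : Set (Fin n → ℝ)} {p : ℝ}

theorem nhds_zero (hK : IsSymmBody K) : K ∈ 𝓝 (0 : Fin n → ℝ) :=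
  mem_interior_iff_mem_nhds.1 hK.zero_mem_interior

theorem gauge_pos_of_ne (hK : IsSymmBody K) {z : Fin n → ℝ} (hz : z ≠ 0) : 0 < gauge K z := by
  rw [gauge_pos (absorbent_nhds_zero (nhds_zero hK))]
  · exact hz
  · rw [NormedSpace.isVonNBounded_iff]
    exact hK.compact.isBounded

theorem normalise_mem (hK : IsSymmBody K) {z : Fin n → ℝ} (hz : z ≠ 0) :
    (gauge K z)⁻¹ • z ∈ frontier K := by
  have hg := gauge_pos_of_ne hK hz
  rw [← gauge_eq_one_iff_mem_frontier hK.convex (nhds_zero hK),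
    gauge_smul_of_nonneg (inv_nonneg.2 hg.le), smul_eq_mul, inv_mul_cancel₀ hg.ne']

/-- the cone over the set of boundary points with density `1 + p` -/
def zeroCone {n : ℕ} (p : ℝ) (K : Set (Fin n → ℝ)) : Set (Fin n → ℝ) :=
  {z | z ≠ 0 ∧ lpDensity p K ((gauge K z)⁻¹ • z) = 1 + p}

theorem gauge_sub_abs (hK : IsSymmBody K) (x y : Fin n → ℝ) :
    |gauge K x - gauge K y| ≤ gauge K (x - y) := by
  have habs := absorbent_nhds_zero (nhds_zero hK) (𝕜 := ℝ)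
  have h1 := gauge_add_le hK.convex habs (x - y) y
  have h2 := gauge_add_le hK.convex habs (y - x) x
  have h3 : gauge K (y - x) = gauge K (x - y) := by
    rw [← neg_sub, gauge_neg]
    exact hK.symm
  rw [sub_add_cancel] at h1 h2
  rw [abs_le]
  constructor <;> linarith

theorem bdry_est (hp : 0 < p) (hK : IsSymmBody K) {C : ℝ} (hC : 0 ≤ C)
    (hsc : ∀ x ∈ K, ∀ y ∈ K, ∀ t : ℝ, 0 ≤ t → t ≤ 1 →
      (1 - t) * lpDensity p K x + t * lpDensity p K y ≤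
        lpDensity p K ((1 - t) • x + t • y) + C * ‖x - y‖ ^ 2)
    {ρ R : ℝ} (hρ : 0 < ρ) (hρK : Metric.closedBall (0 : Fin n → ℝ) ρ ⊆ K)
    (_hR0 : 0 ≤ R) (hR : ∀ x ∈ K, ‖x‖ ≤ R) (hψ0 : lpDensity p K 0 ≤ 1 + p)
    {x' v : Fin n → ℝ} (hx'f : x' ∈ frontier K) (hvρ : ‖v‖ ≤ ρ / 4)
    (hz1 : x' + v ∈ zeroCone p K) (hz2 : x' + (2 : ℝ) • v ∈ zeroCone p K) :
    lpDensity p K x' - (1 + p) ≤ 5 / 2 * (C * ((4 * R / ρ + 4) * ‖v‖) ^ 2) := by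
  have hq : 0 < 1 / p := by positivity
  have hfrK : frontier K ⊆ K := hK.compact.isClosed.frontier_subset
  have hKd : K ⊆ (1 + ep (1 / p)) • K := subset_dilate hK (by linarith [ep_pos hq])
  have hgn : ∀ z : Fin n → ℝ, gauge K z ≤ ‖z‖ / ρ := by
    intro z
    rw [le_div_iff₀ hρ, mul_comm]
    exact mul_gauge_le_norm (Metric.ball_subset_closedBall.trans hρK)
  have hx'K : x' ∈ K := hfrK hx'f
  obtain ⟨z₁, hz₁⟩ : ∃ z₁, z₁ = x' + v := ⟨_, rfl⟩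
  obtain ⟨z₂, hz₂⟩ : ∃ z₂, z₂ = x' + (2 : ℝ) • v := ⟨_, rfl⟩
  rw [← hz₁] at hz1
  rw [← hz₂] at hz2
  obtain ⟨hz1n, hz1ψ⟩ := hz1
  obtain ⟨hz2n, hz2ψ⟩ := hz2
  obtain ⟨a, ha⟩ : ∃ a, a = gauge K z₂ := ⟨_, rfl⟩
  rw [← ha] at hz2ψ
  have ha0 : 0 < a := ha ▸ gauge_pos_of_ne hK hz2n
  have hgx' : gauge K x' = 1 :=
    (gauge_eq_one_iff_mem_frontier hK.convex (nhds_zero hK)).2 hx'f
  have h2v : gauge K ((2 : ℝ) • v) ≤ 2 * ‖v‖ / ρ := by
    have := hgn ((2 : ℝ) • v)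
    rwa [norm_smul, Real.norm_eq_abs, abs_of_pos (two_pos : (0 : ℝ) < 2)] at this
  have ha1 : |a - 1| ≤ 2 * ‖v‖ / ρ := by
    have h1 := gauge_sub_abs hK z₂ x'
    rw [hgx', ← ha, hz₂, add_sub_cancel_left] at h1
    exact h1.trans h2v
  have ha2 : 2 * ‖v‖ / ρ ≤ 1 / 2 := by
    rw [div_le_iff₀ hρ]
    linarith
  have ha3 := abs_le.1 ha1
  have ha4 : 1 / 2 ≤ a := by linarith
  have ha5 : a ≤ 3 / 2 := by linarith
  obtain ⟨b₂, hb₂⟩ : ∃ b₂, b₂ = a⁻¹ • z₂ := ⟨_, rfl⟩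
  rw [← hb₂] at hz2ψ
  have hb₂f : b₂ ∈ frontier K := by
    rw [hb₂, ha]
    exact normalise_mem hK hz2n
  have hb₂K : b₂ ∈ K := hfrK hb₂f
  have hz₂b : z₂ = a • b₂ := by
    rw [hb₂, smul_smul, mul_inv_cancel₀ ha0.ne', one_smul]
  obtain ⟨t, ht⟩ : ∃ t, t = a / (1 + a) := ⟨_, rfl⟩
  have ht0 : 0 ≤ t := by
    rw [ht]
    positivity
  have h1t : 1 - t = 1 / (1 + a) := by
    rw [ht]
    field_simp
    ring
  have ht1 : t ≤ 1 := by
    have : 0 < 1 / (1 + a) := by positivity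
    linarith
  obtain ⟨m, hm⟩ : ∃ m, m = (1 - t) • x' + t • b₂ := ⟨_, rfl⟩
  have hmz : m = (2 / (1 + a)) • z₁ := by
    have e1 : t • b₂ = (1 / (1 + a)) • z₂ := by
      rw [hz₂b, smul_smul, ht]
      congr 1
      field_simp
    rw [hm, h1t, e1, ← smul_add, hz₁, hz₂]
    have e2 : x' + (x' + (2 : ℝ) • v) = (2 : ℝ) • (x' + v) := by
      rw [smul_add, two_smul ℝ x']
      abel
    rw [e2, smul_smul]
    congr 1
    ring
  have hmK : m ∈ K := hm ▸ hK.convex hx'K hb₂K (by linarith) ht0 (by ring)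
  have hψm : lpDensity p K m ≤ 1 + p := by
    have hg1 : 0 < gauge K z₁ := gauge_pos_of_ne hK hz1n
    have hb₁f : (gauge K z₁)⁻¹ • z₁ ∈ frontier K := normalise_mem hK hz1n
    have hs0 : 0 ≤ gauge K m := gauge_nonneg _
    have hs1 : gauge K m ≤ 1 := gauge_le_one_of_mem hmK
    have hsb : m = gauge K m • ((gauge K z₁)⁻¹ • z₁) := by
      have e : gauge K m = (2 / (1 + a)) * gauge K z₁ := by
        rw [hmz, gauge_smul_of_nonneg (by positivity), smul_eq_mul]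
      rw [e, smul_smul, mul_assoc, mul_inv_cancel₀ hg1.ne', mul_one, ← hmz]
    have h1 := lpDensity_ray hp hK (hKd (hfrK hb₁f)) hs0 hs1
    rw [← hsb, hz1ψ] at h1
    nlinarith
  have hxb : ‖x' - b₂‖ ≤ (4 * R / ρ + 4) * ‖v‖ := by
    have e : x' - b₂ = a⁻¹ • ((a - 1) • x' - (2 : ℝ) • v) := by
      have e1 : (a - 1) • x' - (2 : ℝ) • v = a • x' - z₂ := by
        rw [hz₂, sub_smul, one_smul]
        abel
      rw [e1, smul_sub, smul_smul, inv_mul_cancel₀ ha0.ne', one_smul, hb₂]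
    rw [e, norm_smul, Real.norm_eq_abs, abs_of_pos (inv_pos.2 ha0)]
    have h1 : a⁻¹ ≤ 2 := by
      rw [inv_le_comm₀ ha0 two_pos]
      linarith
    have h2 : ‖(a - 1) • x' - (2 : ℝ) • v‖ ≤ 2 * ‖v‖ / ρ * R + 2 * ‖v‖ := by
      refine (norm_sub_le _ _).trans ?_
      rw [norm_smul, norm_smul, Real.norm_eq_abs, Real.norm_eq_abs,
        abs_of_pos (two_pos : (0 : ℝ) < 2)]
      have := hR x' hx'K
      gcongr
    calc a⁻¹ * ‖(a - 1) • x' - (2 : ℝ) • v‖ ≤ 2 * (2 * ‖v‖ / ρ * R + 2 * ‖v‖) := by gcongr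
      _ = _ := by ring
  have h1 := hsc x' hx'K b₂ hb₂K t ht0 ht1
  rw [hz2ψ, ← hm] at h1
  have h2 : (1 - t) * (lpDensity p K x' - (1 + p)) ≤ C * ‖x' - b₂‖ ^ 2 := by nlinarith
  have h3 : lpDensity p K x' - (1 + p) ≤ (1 + a) * (C * ‖x' - b₂‖ ^ 2) := by
    rw [h1t, div_mul_eq_mul_div, one_mul, div_le_iff₀ (by positivity)] at h2
    linarith
  refine h3.trans ?_
  have h5 : 1 + a ≤ 5 / 2 := by linarith
  gcongr

theorem near_bound (hp : 0 < p) (hK : IsSymmBody K) {x₀ : Fin n → ℝ} (hx₀ : x₀ ∈ frontier K)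
    (hψ₀ : lpDensity p K x₀ = 1 + p) (hSm : MeasurableSet (zeroCone p K))
    (hd : Tendsto (fun r => volume (zeroCone p K ∩ Metric.closedBall x₀ r) /
      volume (Metric.closedBall x₀ r)) (𝓝[>] 0) (𝓝 1)) {ε : ℝ} (hε : 0 < ε) :
    ∃ r₀ > 0, ∀ x ∈ K, ‖x - x₀‖ ≤ r₀ →
      lpDensity p K x - (1 + p) ≤ ε * ‖x - x₀‖ ^ 2 -
        (1 - gauge K x) * (1 + p - lpDensity p K 0) := by
  have hq : 0 < 1 / p := by positivity
  have hKcl : IsClosed K := hK.compact.isClosed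
  have hfrK : frontier K ⊆ K := hKcl.frontier_subset
  have hx₀K : x₀ ∈ K := hfrK hx₀
  have hKd : K ⊆ (1 + ep (1 / p)) • K := subset_dilate hK (by linarith [ep_pos hq])
  obtain ⟨C, hC, hsc⟩ := lpDensity_semiconcave hp hK
  obtain ⟨ρ, hρ, hρK⟩ := hK.exists_ball
  obtain ⟨R, hR⟩ := hK.compact.isBounded.exists_norm_le
  have hR0 : 0 ≤ R := (norm_nonneg _).trans (hR x₀ hx₀K)
  have hgn : ∀ z : Fin n → ℝ, gauge K z ≤ ‖z‖ / ρ := by
    intro z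
    rw [le_div_iff₀ hρ, mul_comm]
    exact mul_gauge_le_norm (Metric.ball_subset_closedBall.trans hρK)
  have hgx₀ : gauge K x₀ = 1 := (gauge_eq_one_iff_mem_frontier hK.convex (nhds_zero hK)).2 hx₀
  have hψ0 : lpDensity p K 0 ≤ 1 + p := by
    by_cases h0 : x₀ = 0
    · rw [h0] at hψ₀
      exact hψ₀.le
    · have := lpDensity_zero_lt hp hK (hKd hx₀K) h0
      linarith
  obtain ⟨A₁, hA₁⟩ : ∃ A₁, A₁ = 4 * R / ρ + 4 := ⟨_, rfl⟩
  obtain ⟨A₂, hA₂⟩ : ∃ A₂, A₂ = 1 + 2 * R / ρ := ⟨_, rfl⟩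
  have hA₁0 : 0 < A₁ := by
    rw [hA₁]
    positivity
  have hA₂0 : 1 ≤ A₂ := by
    have : 0 ≤ 2 * R / ρ := by positivity
    linarith
  obtain ⟨B, hB⟩ : ∃ B, B = 5 / 2 * C * A₁ ^ 2 * A₂ ^ 2 := ⟨_, rfl⟩
  have hB0 : 0 ≤ B := by
    rw [hB]
    positivity
  obtain ⟨δ, hδ⟩ : ∃ δ, δ = min 1 (ε / (B + 1)) := ⟨_, rfl⟩
  have hδ0 : 0 < δ := by
    rw [hδ]
    positivity
  have hδ1 : δ ≤ 1 := hδ ▸ min_le_left _ _
  have hδ2 : B * δ ^ 2 ≤ ε := by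
    have h1 : δ ≤ ε / (B + 1) := hδ ▸ min_le_right _ _
    rw [le_div_iff₀ (by positivity)] at h1
    have h2 : δ ^ 2 ≤ δ := by nlinarith
    nlinarith
  obtain ⟨r₁, hr₁, hstep⟩ := density_step hSm hd hδ0 hδ1
  refine ⟨min (min (ρ / 2) (r₁ / A₂)) (ρ / 4 / A₂), by positivity, ?_⟩
  intro x hx hxr
  have hx1 : ‖x - x₀‖ ≤ ρ / 2 := hxr.trans ((min_le_left _ _).trans (min_le_left _ _))
  have hx2 : ‖x - x₀‖ ≤ r₁ / A₂ := hxr.trans ((min_le_left _ _).trans (min_le_right _ _))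
  have hx3 : ‖x - x₀‖ ≤ ρ / 4 / A₂ := hxr.trans (min_le_right _ _)
  rw [le_div_iff₀ (by positivity)] at hx2 hx3
  have hN1 : gauge K x ≤ 1 := gauge_le_one_of_mem hx
  have hN2 : 1 - gauge K x ≤ ‖x - x₀‖ / ρ := by
    have h1 := gauge_sub_abs hK x x₀
    rw [hgx₀] at h1
    have h2 := (abs_le.1 (h1.trans (hgn _))).1
    linarith
  have hN3 : 1 / 2 ≤ gauge K x := by
    have : ‖x - x₀‖ / ρ ≤ 1 / 2 := by
      rw [div_le_iff₀ hρ]
      linarith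
    linarith
  have hNpos : 0 < gauge K x := by linarith
  have hxne : x ≠ 0 := by
    rintro rfl
    rw [gauge_zero] at hNpos
    exact lt_irrefl _ hNpos
  obtain ⟨x', hx'⟩ : ∃ x', x' = (gauge K x)⁻¹ • x := ⟨_, rfl⟩
  have hx'f : x' ∈ frontier K := hx' ▸ normalise_mem hK hxne
  have hx'K : x' ∈ K := hfrK hx'f
  have hxx' : x = gauge K x • x' := by
    rw [hx', smul_smul, mul_inv_cancel₀ hNpos.ne', one_smul]
  have hx'd : ‖x' - x₀‖ ≤ A₂ * ‖x - x₀‖ := by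
    have h1 : x' - x = ((gauge K x)⁻¹ - 1) • x := by
      rw [hx', sub_smul, one_smul]
    have h2 : ‖x' - x‖ ≤ 2 * R / ρ * ‖x - x₀‖ := by
      rw [h1, norm_smul, Real.norm_eq_abs, abs_of_nonneg (by
        have := (one_le_inv₀ hNpos).2 hN1
        linarith)]
      have h3 : (gauge K x)⁻¹ - 1 ≤ 2 * (‖x - x₀‖ / ρ) := by
        rw [inv_eq_one_div, div_sub_one hNpos.ne', div_le_iff₀ hNpos]
        have : 0 ≤ ‖x - x₀‖ / ρ := by positivity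
        nlinarith
      calc ((gauge K x)⁻¹ - 1) * ‖x‖ ≤ 2 * (‖x - x₀‖ / ρ) * R := by
            have := hR x hx
            gcongr
        _ = _ := by ring
    calc ‖x' - x₀‖ = ‖(x' - x) + (x - x₀)‖ := by rw [sub_add_sub_cancel]
      _ ≤ ‖x' - x‖ + ‖x - x₀‖ := norm_add_le _ _
      _ ≤ 2 * R / ρ * ‖x - x₀‖ + ‖x - x₀‖ := by gcongr
      _ = _ := by
          rw [hA₂]
          ring
  -- the bound at `x'`
  have hmain : lpDensity p K x' - (1 + p) ≤ ε * ‖x - x₀‖ ^ 2 := by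
    by_cases hxe : x' = x₀
    · rw [hxe, hψ₀, sub_self]
      positivity
    have hr0 : 0 < ‖x' - x₀‖ := norm_pos_iff.2 (sub_ne_zero.2 hxe)
    obtain ⟨v, hv, hz1, hz2⟩ := hstep ‖x' - x₀‖ hr0 (by linarith) x' le_rfl
    have hvρ : ‖v‖ ≤ ρ / 4 := by
      have : δ * ‖x' - x₀‖ ≤ ‖x' - x₀‖ := mul_le_of_le_one_left hr0.le hδ1
      linarith
    have h3 := bdry_est hp hK hC hsc hρ hρK hR0 hR hψ0 hx'f hvρ hz1 hz2
    rw [← hA₁] at h3
    have h6 : A₁ * ‖v‖ ≤ A₁ * (δ * (A₂ * ‖x - x₀‖)) := by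
      gcongr
      refine hv.trans ?_
      gcongr
    calc lpDensity p K x' - (1 + p) ≤ 5 / 2 * (C * (A₁ * ‖v‖) ^ 2) := h3
      _ ≤ (5 / 2) * (C * (A₁ * (δ * (A₂ * ‖x - x₀‖))) ^ 2) := by gcongr
      _ = (B * δ ^ 2) * ‖x - x₀‖ ^ 2 := by
          rw [hB]
          ring
      _ ≤ ε * ‖x - x₀‖ ^ 2 := by gcongr
  have hray := lpDensity_ray hp hK (hKd hx'K) hNpos.le hN1
  rw [← hxx'] at hray
  have h4 : gauge K x * (lpDensity p K x' - (1 + p)) ≤ ε * ‖x - x₀‖ ^ 2 := by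
    have h5 : 0 ≤ ε * ‖x - x₀‖ ^ 2 := by positivity
    calc gauge K x * (lpDensity p K x' - (1 + p)) ≤ gauge K x * (ε * ‖x - x₀‖ ^ 2) := by gcongr
      _ ≤ _ := mul_le_of_le_one_left h5 hN1
  nlinarith

end Pool.Agent.Helper58.LpM
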