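import Pool.Agent.Helper15.LpM.Patch

/-!
# Quadratic upper and lower bounds for the density of the `L^p`-Mahler volume
-/

set_option autoImplicit false

namespace Pool.Agent.Helper58.LpM

open MeasureTheory Set Real Pool.Agent.Helper15.LpM
open scoped ENNReal NNReal Pointwise Topology

theorem exp_semiconcave (a b t : ℝ) (ht0 : 0 ≤ t) (ht1 : t ≤ 1) :
    (1 - t) * Real.exp a + t * Real.exp b - Real.exp ((1 - t) * a + t * b) ≤
      (a - b) ^ 2 * (Real.exp a + Real.exp b) := by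
  set m := (1 - t) * a + t * b with hm
  have key : ∀ x y : ℝ, Real.exp x - Real.exp y ≤ (x - y) * Real.exp x := by
    intro x y
    have h1 := Real.add_one_le_exp (y - x)
    have h2 : Real.exp y = Real.exp x * Real.exp (y - x) := by
      rw [← Real.exp_add]
      congr 1
      ring
    rw [h2]
    nlinarith [Real.exp_pos x]
  have h1 := key a m
  have h2 := key b m
  have h3 : (1 - t) * (Real.exp a - Real.exp m) + t * (Real.exp b - Real.exp m) ≤
      (1 - t) * ((a - m) * Real.exp a) + t * ((b - m) * Real.exp b) := by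
    have := mul_le_mul_of_nonneg_left h1 (sub_nonneg.2 ht1)
    have := mul_le_mul_of_nonneg_left h2 ht0
    linarith
  have e1 : a - m = t * (a - b) := by rw [hm]; ring
  have e2 : b - m = -((1 - t) * (a - b)) := by rw [hm]; ring
  rw [e1, e2] at h3
  have h4 : (a - b) * (Real.exp a - Real.exp b) ≤ (a - b) ^ 2 * (Real.exp a + Real.exp b) := by
    rcases le_total b a with h | h
    · have h5 := mul_le_mul_of_nonneg_left (key a b) (sub_nonneg.2 h)
      nlinarith [Real.exp_pos b, sq_nonneg (a - b), mul_nonneg (sq_nonneg (a - b)) (Real.exp_pos b).le]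
    · have h5 := mul_le_mul_of_nonneg_left (key b a) (sub_nonneg.2 h)
      nlinarith [Real.exp_pos a, sq_nonneg (a - b), mul_nonneg (sq_nonneg (a - b)) (Real.exp_pos a).le]
  have h5 : 0 ≤ (a - b) * (Real.exp a - Real.exp b) := by
    rcases le_total b a with h | h
    · exact mul_nonneg (by linarith) (by linarith [Real.exp_le_exp.2 h])
    · exact mul_nonneg_of_nonpos_of_nonpos (by linarith) (by linarith [Real.exp_le_exp.2 h])
  have h6 : t * (1 - t) ≤ 1 := by nlinarith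
  have h7 : t * (1 - t) * ((a - b) * (Real.exp a - Real.exp b)) ≤
      (a - b) * (Real.exp a - Real.exp b) := mul_le_of_le_one_left h5 h6
  nlinarith

theorem exp_strong (s : ℝ) : 1 + s + s ^ 2 / 4 * Real.exp (-|s|) ≤ Real.exp s := by
  rcases le_or_gt 0 s with h | h
  · have h1 := Real.quadratic_le_exp_of_nonneg h
    have h2 : Real.exp (-|s|) ≤ 1 := Real.exp_le_one_iff.2 (by simp)
    have h3 : s ^ 2 / 4 * Real.exp (-|s|) ≤ s ^ 2 / 4 * 1 := by gcongr
    nlinarith [sq_nonneg s]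
  · rw [abs_of_neg h, neg_neg]
    obtain ⟨r, hr⟩ : ∃ r, r = -s := ⟨_, rfl⟩
    have hs : s = -r := by linarith
    have hr0 : 0 < r := by linarith
    rw [hs]
    rcases le_or_gt 2 r with h2 | h2
    · have h3 := Real.quadratic_le_exp_of_nonneg hr0.le
      have h4 : Real.exp (-r) * Real.exp r = 1 := by rw [← Real.exp_add]; simp
      have h5 := Real.exp_pos (-r)
      have h6' : r ^ 2 / 4 ≤ Real.exp r / 2 := by nlinarith
      have h6 : Real.exp (-r) * (r ^ 2 / 4) ≤ Real.exp (-r) * (Real.exp r / 2) :=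
        mul_le_mul_of_nonneg_left h6' h5.le
      have h7 : Real.exp (-r) * (Real.exp r / 2) = 1 / 2 := by
        rw [← mul_div_assoc, h4]
      have e : (-r) ^ 2 / 4 * Real.exp (-r) = Real.exp (-r) * (r ^ 2 / 4) := by ring
      rw [e]
      linarith
    · have h3 := Real.add_one_le_exp (-(r / 2))
      have h4 : Real.exp (-r) = Real.exp (-(r / 2)) ^ 2 := by
        rw [← Real.exp_nat_mul]
        congr 1
        push_cast
        ring
      have h5 : (1 - r / 2) ^ 2 ≤ Real.exp (-r) := by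
        rw [h4]
        apply pow_le_pow_left₀ (by linarith)
        linarith
      have h6 : 0 ≤ 1 - r ^ 2 / 4 := by nlinarith
      have h7 := mul_le_mul_of_nonneg_left h5 h6
      have h8 : 0 ≤ r ^ 3 * (4 - r) := mul_nonneg (pow_nonneg hr0.le 3) (by linarith)
      nlinarith


section

variable {n : ℕ} {K : Set (Fin n → ℝ)} {p q : ℝ}

theorem abs_dot_le (x y : Fin n → ℝ) : |x ⬝ᵥ y| ≤ n * ‖x‖ * ‖y‖ := by
  simp only [dotProduct]
  calc |∑ i, x i * y i| ≤ ∑ i, |x i * y i| := Finset.abs_sum_le_sum_abs _ _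
    _ ≤ ∑ _i : Fin n, ‖x‖ * ‖y‖ := by
        refine Finset.sum_le_sum fun i _ => ?_
        rw [abs_mul]
        exact mul_le_mul (norm_le_pi_norm x i) (norm_le_pi_norm y i) (abs_nonneg _)
          (norm_nonneg _)
    _ = _ := by simp [mul_assoc]

theorem integrable_sq_exp_neg_norm {c : ℝ} (hc : 0 < c) :
    Integrable (fun y : Fin n → ℝ => ‖y‖ ^ 2 * Real.exp (-(c * ‖y‖))) := by
  have h1 : Integrable (fun y : Fin n → ℝ => 8 / c ^ 2 * Real.exp (-(c / 2 * ‖y‖))) :=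
    (integrable_exp_neg_norm (by positivity)).const_mul _
  refine h1.mono' (by fun_prop) ?_
  filter_upwards with y
  rw [Real.norm_eq_abs, abs_of_nonneg (by positivity)]
  have h2 := Real.quadratic_le_exp_of_nonneg (show 0 ≤ c / 2 * ‖y‖ by positivity)
  have h3 : ‖y‖ ^ 2 ≤ 8 / c ^ 2 * Real.exp (c / 2 * ‖y‖) := by
    rw [div_mul_eq_mul_div, le_div_iff₀ (by positivity)]
    have : 0 ≤ c / 2 * ‖y‖ := by positivity
    nlinarith
  calc ‖y‖ ^ 2 * Real.exp (-(c * ‖y‖))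
      ≤ 8 / c ^ 2 * Real.exp (c / 2 * ‖y‖) * Real.exp (-(c * ‖y‖)) := by gcongr
    _ = 8 / c ^ 2 * Real.exp (-(c / 2 * ‖y‖)) := by
        rw [mul_assoc, ← Real.exp_add]
        congr 2
        ring

theorem convex_dilate (hK : IsSymmBody K) (hq : 0 < q) {x : Fin n → ℝ} (hx : x ∈ K) :
    x ∈ (1 + ep q) • K := subset_dilate hK (by linarith [ep_pos hq]) hx

theorem Psi_semiconcave (hK : IsSymmBody K) (hq : 0 < q) :
    ∃ C : ℝ, 0 ≤ C ∧ ∀ x ∈ K, ∀ y ∈ K, ∀ t : ℝ, 0 ≤ t → t ≤ 1 →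
      (1 - t) * Psi q K x + t * Psi q K y ≤ Psi q K ((1 - t) • x + t • y) + C * ‖x - y‖ ^ 2 := by
  obtain ⟨r, hr, hrK⟩ := hK.exists_ball
  have hD := Real.rpow_pos_of_pos (Dc_pos hK hq) (-q - 1)
  have hI := integrable_sq_exp_neg_norm (n := n) (c := q / 2 * r) (by positivity)
  have hI0 : 0 ≤ ∫ z : Fin n → ℝ, ‖z‖ ^ 2 * Real.exp (-(q / 2 * r * ‖z‖)) :=
    integral_nonneg fun _ => by positivity
  refine ⟨2 * n ^ 2 * Dc q K ^ (-q - 1) *
    ∫ z : Fin n → ℝ, ‖z‖ ^ 2 * Real.exp (-(q / 2 * r * ‖z‖)), by positivity, ?_⟩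
  intro x hx y hy t ht0 ht1
  have hm : (1 - t) • x + t • y ∈ K := hK.convex hx hy (by linarith) ht0 (by ring)
  have ix := int_Psi' hK hq (convex_dilate hK hq hx)
  have iy := int_Psi' hK hq (convex_dilate hK hq hy)
  have im := int_Psi' hK hq (convex_dilate hK hq hm)
  have hpt : ∀ z : Fin n → ℝ, (1 - t) * (Real.exp (x ⬝ᵥ z) * EK K z ^ (-q - 1)) +
      t * (Real.exp (y ⬝ᵥ z) * EK K z ^ (-q - 1)) ≤
      Real.exp (((1 - t) • x + t • y) ⬝ᵥ z) * EK K z ^ (-q - 1) +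
      2 * n ^ 2 * Dc q K ^ (-q - 1) * ‖x - y‖ ^ 2 *
        (‖z‖ ^ 2 * Real.exp (-(q / 2 * r * ‖z‖))) := by
    intro z
    have hE := Real.rpow_pos_of_pos (EK_pos' hK z) (-q - 1)
    have h1 := exp_semiconcave (x ⬝ᵥ z) (y ⬝ᵥ z) t ht0 ht1
    have h2 : ((1 - t) • x + t • y) ⬝ᵥ z = (1 - t) * (x ⬝ᵥ z) + t * (y ⬝ᵥ z) := by
      rw [add_dotProduct, smul_dotProduct, smul_dotProduct, smul_eq_mul, smul_eq_mul]
    have dx := Psi_dom hK hq hr hrK (convex_dilate hK hq hx) z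
    have dy := Psi_dom hK hq hr hrK (convex_dilate hK hq hy) z
    have h3 : (x ⬝ᵥ z - y ⬝ᵥ z) ^ 2 ≤ n ^ 2 * ‖x - y‖ ^ 2 * ‖z‖ ^ 2 := by
      have h4 := abs_dot_le (x - y) z
      rw [sub_dotProduct] at h4
      have h5 := pow_le_pow_left₀ (abs_nonneg _) h4 2
      rw [sq_abs] at h5
      calc _ ≤ _ := h5
        _ = _ := by ring
    rw [h2]
    have h6 : (x ⬝ᵥ z - y ⬝ᵥ z) ^ 2 * ((Real.exp (x ⬝ᵥ z) + Real.exp (y ⬝ᵥ z)) *
        EK K z ^ (-q - 1)) ≤ (n ^ 2 * ‖x - y‖ ^ 2 * ‖z‖ ^ 2) *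
        (2 * (Dc q K ^ (-q - 1) * Real.exp (-(q / 2 * r * ‖z‖)))) := by
      apply mul_le_mul h3 _ (by positivity) (by positivity)
      linarith
    nlinarith
  have hint := integral_mono ((ix.const_mul (1 - t)).add (iy.const_mul t))
    (im.add (hI.const_mul (2 * n ^ 2 * Dc q K ^ (-q - 1) * ‖x - y‖ ^ 2))) hpt
  rw [integral_add' (ix.const_mul (1 - t)) (iy.const_mul t), integral_add' im
    (hI.const_mul (2 * n ^ 2 * Dc q K ^ (-q - 1) * ‖x - y‖ ^ 2)), integral_const_mul,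
    integral_const_mul, integral_const_mul] at hint
  unfold Psi
  linarith

/-- a positive weight defines a positive definite quadratic form -/
theorem quadForm_pos {ρ : (Fin n → ℝ) → ℝ} (hρc : Continuous ρ) (hρ : ∀ z, 0 < ρ z)
    {C c : ℝ} (hc : 0 < c) (hdom : ∀ z, ρ z ≤ C * Real.exp (-(c * ‖z‖))) :
    ∃ κ : ℝ, 0 < κ ∧ ∀ h : Fin n → ℝ, κ * ‖h‖ ^ 2 ≤ ∫ z, (h ⬝ᵥ z) ^ 2 * ρ z := by
  have hC : 0 < C := by
    have h1 := (hρ 0).trans_le (hdom 0)
    simpa using h1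
  have hM : ∀ i j : Fin n, Integrable (fun z : Fin n → ℝ => z i * z j * ρ z) := by
    intro i j
    refine ((integrable_sq_exp_neg_norm hc).const_mul C).mono'
      (by fun_prop) ?_
    filter_upwards with z
    rw [Real.norm_eq_abs, abs_mul, abs_mul, abs_of_pos (hρ z)]
    have h1 := norm_le_pi_norm z i
    have h2 := norm_le_pi_norm z j
    rw [Real.norm_eq_abs] at h1 h2
    calc |z i| * |z j| * ρ z ≤ ‖z‖ * ‖z‖ * (C * Real.exp (-(c * ‖z‖))) := by
          have := hdom z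
          have := (hρ z).le
          gcongr
      _ = _ := by ring
  have hQ : ∀ h : Fin n → ℝ, Integrable (fun z => (h ⬝ᵥ z) ^ 2 * ρ z) ∧
      ∫ z, (h ⬝ᵥ z) ^ 2 * ρ z = ∑ i, ∑ j, h i * h j * ∫ z : Fin n → ℝ, z i * z j * ρ z := by
    intro h
    have e : ∀ z : Fin n → ℝ, (h ⬝ᵥ z) ^ 2 * ρ z = ∑ i, ∑ j, h i * h j * (z i * z j * ρ z) := by
      intro z
      rw [sq, dotProduct, Finset.sum_mul_sum, Finset.sum_mul]
      refine Finset.sum_congr rfl fun i _ => ?_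
      rw [Finset.sum_mul]
      refine Finset.sum_congr rfl fun j _ => ?_
      ring
    simp only [e]
    have hi : ∀ i, Integrable (fun z : Fin n → ℝ => ∑ j, h i * h j * (z i * z j * ρ z)) :=
      fun i => integrable_finsetSum _ fun j _ => (hM i j).const_mul _
    refine ⟨integrable_finsetSum _ fun i _ => hi i, ?_⟩
    rw [integral_finsetSum _ fun i _ => hi i]
    refine Finset.sum_congr rfl fun i _ => ?_
    rw [integral_finsetSum _ fun j _ => (hM i j).const_mul _]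
    refine Finset.sum_congr rfl fun j _ => ?_
    rw [integral_const_mul]
  have hcont : Continuous (fun h : Fin n → ℝ => ∫ z, (h ⬝ᵥ z) ^ 2 * ρ z) := by
    have e : (fun h : Fin n → ℝ => ∫ z, (h ⬝ᵥ z) ^ 2 * ρ z) =
        fun h => ∑ i, ∑ j, h i * h j * ∫ z : Fin n → ℝ, z i * z j * ρ z := by
      ext h
      exact (hQ h).2
    rw [e]
    fun_prop
  have hpos : ∀ h : Fin n → ℝ, h ≠ 0 → 0 < ∫ z, (h ⬝ᵥ z) ^ 2 * ρ z := by
    intro h hh
    rw [integral_pos_iff_support_of_nonneg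
      (fun z => mul_nonneg (sq_nonneg _) (hρ z).le) (hQ h).1]
    have hc' : Continuous (fun z : Fin n → ℝ => (h ⬝ᵥ z) ^ 2 * ρ z) := by
      simp only [dotProduct]
      fun_prop
    apply hc'.isOpen_support.measure_pos volume
    refine ⟨h, ?_⟩
    rw [Function.mem_support]
    have : h ⬝ᵥ h ≠ 0 := fun h1 => hh (dotProduct_self_eq_zero.1 h1)
    exact mul_ne_zero (pow_ne_zero 2 this) (hρ h).ne'
  rcases (Metric.sphere (0 : Fin n → ℝ) 1).eq_empty_or_nonempty with he | hne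
  · refine ⟨1, one_pos, fun h => ?_⟩
    by_cases hh : h = 0
    · subst hh
      simp
    · exfalso
      have h1 : (‖h‖)⁻¹ • h ∈ Metric.sphere (0 : Fin n → ℝ) 1 := by
        rw [mem_sphere_zero_iff_norm, norm_smul, norm_inv, norm_norm,
          inv_mul_cancel₀ (norm_ne_zero_iff.2 hh)]
      rw [he] at h1
      exact h1
  · obtain ⟨h₀, hh₀, hmin⟩ := (isCompact_sphere (0 : Fin n → ℝ) 1).exists_isMinOn hne
      hcont.continuousOn
    have hh₀' : h₀ ≠ 0 := by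
      rintro rfl
      simp at hh₀
    refine ⟨_, hpos h₀ hh₀', fun h => ?_⟩
    by_cases hh : h = 0
    · subst hh
      simp
    · have hn : ‖h‖ ≠ 0 := norm_ne_zero_iff.2 hh
      have h1 : (‖h‖)⁻¹ • h ∈ Metric.sphere (0 : Fin n → ℝ) 1 := by
        rw [mem_sphere_zero_iff_norm, norm_smul, norm_inv, norm_norm, inv_mul_cancel₀ hn]
      have h2 := hmin h1
      simp only [mem_ofPred_eq] at h2
      have h3 : ∫ z, (((‖h‖)⁻¹ • h) ⬝ᵥ z) ^ 2 * ρ z =
          (‖h‖ ^ 2)⁻¹ * ∫ z, (h ⬝ᵥ z) ^ 2 * ρ z := by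
        rw [← integral_const_mul]
        congr 1
        ext z
        rw [smul_dotProduct, smul_eq_mul]
        field_simp
      rw [h3] at h2
      have h4 : 0 < ‖h‖ ^ 2 := by positivity
      calc _ ≤ ((‖h‖ ^ 2)⁻¹ * ∫ z, (h ⬝ᵥ z) ^ 2 * ρ z) * ‖h‖ ^ 2 := by gcongr
        _ = _ := by field_simp

theorem Psi_strong (hK : IsSymmBody K) (hq : 0 < q) {x₀ : Fin n → ℝ} (hx₀ : x₀ ∈ K) :
    ∃ (a : Fin n → ℝ) (κ : ℝ), 0 < κ ∧ ∀ x ∈ K,
      Psi q K x₀ + a ⬝ᵥ (x - x₀) + κ * ‖x - x₀‖ ^ 2 ≤ Psi q K x := by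
  obtain ⟨r, hr, hrK⟩ := hK.exists_ball
  obtain ⟨R, hR⟩ := hK.compact.isBounded.exists_norm_le
  have hR0 : 0 ≤ R := (norm_nonneg _).trans (hR x₀ hx₀)
  have hD := Real.rpow_pos_of_pos (Dc_pos hK hq) (-q - 1)
  have hx₀d := convex_dilate hK hq hx₀
  have i0 := int_Psi' hK hq hx₀d
  set ρ : (Fin n → ℝ) → ℝ := fun z => Real.exp (-(n * (2 * R) * ‖z‖)) *
    (Real.exp (x₀ ⬝ᵥ z) * EK K z ^ (-q - 1)) with hρ
  have hwpos : ∀ z, 0 < EK K z ^ (-q - 1) := fun z => Real.rpow_pos_of_pos (EK_pos' hK z) _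
  have hw0 : ∀ z : Fin n → ℝ, 0 < Real.exp (x₀ ⬝ᵥ z) * EK K z ^ (-q - 1) :=
    fun z => mul_pos (Real.exp_pos _) (hwpos z)
  have hcw : Continuous (fun z : Fin n → ℝ => Real.exp (x₀ ⬝ᵥ z) * EK K z ^ (-q - 1)) := by
    apply Continuous.mul _ (continuous_EKrpow hK _)
    simp only [dotProduct]
    fun_prop
  have hdom : ∀ z, ρ z ≤ Dc q K ^ (-q - 1) * Real.exp (-(q / 2 * r * ‖z‖)) := by
    intro z
    have h1 := Psi_dom hK hq hr hrK hx₀d z
    refine le_trans ?_ h1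
    rw [hρ]
    apply mul_le_of_le_one_left (hw0 z).le
    apply Real.exp_le_one_iff.2
    have : 0 ≤ n * (2 * R) * ‖z‖ := by positivity
    linarith
  obtain ⟨κ, hκ, hQ⟩ := quadForm_pos (ρ := ρ) (by fun_prop)
    (fun z => mul_pos (Real.exp_pos _) (hw0 z)) (by positivity : 0 < q / 2 * r) hdom
  have hI2 := integrable_sq_exp_neg_norm (n := n) (c := q / 2 * r) (by positivity)
  have hI1 : Integrable (fun y : Fin n → ℝ => Real.exp (-(q / 2 * r * ‖y‖))) :=
    integrable_exp_neg_norm (by positivity)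
  -- first moments
  have hM : ∀ i : Fin n, Integrable (fun z : Fin n → ℝ =>
      z i * (Real.exp (x₀ ⬝ᵥ z) * EK K z ^ (-q - 1))) := by
    intro i
    refine ((hI1.add hI2).const_mul (Dc q K ^ (-q - 1))).mono' (by fun_prop) ?_
    filter_upwards with z
    rw [Real.norm_eq_abs, abs_mul, abs_of_pos (hw0 z)]
    have h1 := norm_le_pi_norm z i
    rw [Real.norm_eq_abs] at h1
    have h2 : |z i| ≤ 1 + ‖z‖ ^ 2 := by nlinarith [sq_nonneg (‖z‖ - 1), norm_nonneg z]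
    have h3 := Psi_dom hK hq hr hrK hx₀d z
    calc |z i| * (Real.exp (x₀ ⬝ᵥ z) * EK K z ^ (-q - 1))
        ≤ (1 + ‖z‖ ^ 2) * (Dc q K ^ (-q - 1) * Real.exp (-(q / 2 * r * ‖z‖))) := by
          have := (hw0 z).le
          gcongr
      _ = _ := by
          simp only [Pi.add_apply]
          ring
  refine ⟨fun i => ∫ z : Fin n → ℝ, z i * (Real.exp (x₀ ⬝ᵥ z) * EK K z ^ (-q - 1)), κ / 4,
    by positivity, ?_⟩
  intro x hx
  have ix := int_Psi' hK hq (convex_dilate hK hq hx)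
  set h : Fin n → ℝ := x - x₀ with hh
  have hhR : ‖h‖ ≤ 2 * R := by
    have := (norm_sub_le x x₀).trans (add_le_add (hR x hx) (hR x₀ hx₀))
    linarith
  have iQ : Integrable (fun z => (h ⬝ᵥ z) ^ 2 * ρ z) := by
    refine (hI2.const_mul (n ^ 2 * ‖h‖ ^ 2 * Dc q K ^ (-q - 1))).mono' (by
      simp only [dotProduct]
      fun_prop) ?_
    filter_upwards with z
    have hρ0 : 0 < ρ z := mul_pos (Real.exp_pos _) (hw0 z)
    rw [Real.norm_eq_abs, abs_mul, abs_of_nonneg (sq_nonneg _), abs_of_pos hρ0]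
    have h5 := pow_le_pow_left₀ (abs_nonneg _) (abs_dot_le h z) 2
    rw [sq_abs] at h5
    calc (h ⬝ᵥ z) ^ 2 * ρ z ≤ (n * ‖h‖ * ‖z‖) ^ 2 *
          (Dc q K ^ (-q - 1) * Real.exp (-(q / 2 * r * ‖z‖))) := by
          have := hdom z
          gcongr
      _ = _ := by ring
  have hL : Integrable (fun z : Fin n → ℝ => (h ⬝ᵥ z) *
      (Real.exp (x₀ ⬝ᵥ z) * EK K z ^ (-q - 1))) ∧
      ∫ z : Fin n → ℝ, (h ⬝ᵥ z) * (Real.exp (x₀ ⬝ᵥ z) * EK K z ^ (-q - 1)) =
      (fun i => ∫ z : Fin n → ℝ, z i * (Real.exp (x₀ ⬝ᵥ z) * EK K z ^ (-q - 1))) ⬝ᵥ h := by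
    have e : ∀ z : Fin n → ℝ, (h ⬝ᵥ z) * (Real.exp (x₀ ⬝ᵥ z) * EK K z ^ (-q - 1)) =
        ∑ i, h i * (z i * (Real.exp (x₀ ⬝ᵥ z) * EK K z ^ (-q - 1))) := by
      intro z
      rw [dotProduct, Finset.sum_mul]
      refine Finset.sum_congr rfl fun i _ => ?_
      ring
    simp only [e]
    refine ⟨integrable_finsetSum _ fun i _ => (hM i).const_mul _, ?_⟩
    rw [integral_finsetSum _ fun i _ => (hM i).const_mul _, dotProduct]
    refine Finset.sum_congr rfl fun i _ => ?_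
    rw [integral_const_mul, mul_comm]
  have hpt : ∀ z : Fin n → ℝ, Real.exp (x₀ ⬝ᵥ z) * EK K z ^ (-q - 1) +
      ((h ⬝ᵥ z) * (Real.exp (x₀ ⬝ᵥ z) * EK K z ^ (-q - 1)) + 1 / 4 * ((h ⬝ᵥ z) ^ 2 * ρ z)) ≤
      Real.exp (x ⬝ᵥ z) * EK K z ^ (-q - 1) := by
    intro z
    have h1 := exp_strong (h ⬝ᵥ z)
    have h2 : x ⬝ᵥ z = x₀ ⬝ᵥ z + h ⬝ᵥ z := by
      rw [hh, sub_dotProduct]
      ring
    have h3 : Real.exp (-(n * (2 * R) * ‖z‖)) ≤ Real.exp (-|h ⬝ᵥ z|) := by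
      apply Real.exp_le_exp.2
      have h4 := abs_dot_le h z
      have h5 : n * ‖h‖ * ‖z‖ ≤ n * (2 * R) * ‖z‖ := by gcongr
      linarith
    have h4 : 1 + h ⬝ᵥ z + (h ⬝ᵥ z) ^ 2 / 4 * Real.exp (-(n * (2 * R) * ‖z‖)) ≤
        Real.exp (h ⬝ᵥ z) := by
      refine le_trans ?_ h1
      gcongr
    have h5 := mul_le_mul_of_nonneg_left h4 (hw0 z).le
    rw [h2, Real.exp_add]
    simp only [hρ]
    linarith
  have hint := integral_mono (i0.add (hL.1.add (iQ.const_mul (1 / 4)))) ix hpt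
  rw [integral_add' i0 (hL.1.add (iQ.const_mul (1 / 4))), integral_add' hL.1
    (iQ.const_mul (1 / 4)), hL.2, integral_const_mul] at hint
  have hQh := hQ h
  unfold Psi
  linarith

theorem lpDensity_semiconcave (hp : 0 < p) (hK : IsSymmBody K) :
    ∃ C : ℝ, 0 ≤ C ∧ ∀ x ∈ K, ∀ y ∈ K, ∀ t : ℝ, 0 ≤ t → t ≤ 1 →
      (1 - t) * lpDensity p K x + t * lpDensity p K y ≤
        lpDensity p K ((1 - t) • x + t • y) + C * ‖x - y‖ ^ 2 := by
  have hq : 0 < 1 / p := by positivity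
  obtain ⟨C, hC, h⟩ := Psi_semiconcave hK hq
  have hV := hK.volume_pos
  have hG := GG_pos hK hq
  refine ⟨(volume K).toReal / GG (1 / p) K * C, by positivity, ?_⟩
  intro x hx y hy t ht0 ht1
  have h1 := mul_le_mul_of_nonneg_left (h x hx y hy t ht0 ht1)
    (by positivity : 0 ≤ (volume K).toReal / GG (1 / p) K)
  simp only [lpDensity_eq hp hK]
  calc _ = (volume K).toReal / GG (1 / p) K *
        ((1 - t) * Psi (1 / p) K x + t * Psi (1 / p) K y) := by ring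
    _ ≤ _ := h1
    _ = _ := by ring

theorem lpDensity_strong (hp : 0 < p) (hK : IsSymmBody K) {x₀ : Fin n → ℝ} (hx₀ : x₀ ∈ K) :
    ∃ (a : Fin n → ℝ) (κ : ℝ), 0 < κ ∧ ∀ x ∈ K,
      lpDensity p K x₀ + a ⬝ᵥ (x - x₀) + κ * ‖x - x₀‖ ^ 2 ≤ lpDensity p K x := by
  have hq : 0 < 1 / p := by positivity
  obtain ⟨a, κ, hκ, h⟩ := Psi_strong hK hq hx₀
  have hV := hK.volume_pos
  have hG := GG_pos hK hq
  refine ⟨((volume K).toReal / GG (1 / p) K) • a, (volume K).toReal / GG (1 / p) K * κ,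
    by positivity, ?_⟩
  intro x hx
  have h1 := mul_le_mul_of_nonneg_left (h x hx)
    (by positivity : 0 ≤ (volume K).toReal / GG (1 / p) K)
  simp only [lpDensity_eq hp hK, smul_dotProduct, smul_eq_mul]
  calc _ = (volume K).toReal / GG (1 / p) K *
        (Psi (1 / p) K x₀ + a ⬝ᵥ (x - x₀) + κ * ‖x - x₀‖ ^ 2) := by ring
    _ ≤ _ := h1
    _ = _ := by ring

end

end Pool.Agent.Helper58.LpM
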